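import Pool.Agent.R231.VR.Core

set_option autoImplicit false

open Filter Topology Set

namespace Pool.Agent.Results.MP_f4f8d7_an.GlideReflection

/-- the Euclidean plane -/
abbrev Plane := EuclideanSpace ℝ (Fin 2)

/-- the graph of `f` -/
def graph (f : ℝ → ℝ) : Set Plane := Set.range (fun x : ℝ => (WithLp.toLp 2 ![x, f x] : Plane))

/-- vertically rigid functions -/
def VerticallyRigid (f : ℝ → ℝ) : Prop :=
  ∀ c : ℝ, 0 < c → ∃ φ : Plane ≃ᵢ Plane, φ '' graph (fun x => c * f x) = graph f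

/-- `φ` is a translation -/
def IsTranslation (φ : Plane ≃ᵢ Plane) : Prop := ∃ v : Plane, ∀ p, φ p = p + v

/-- the glide reflection `(x, y) ↦ (x + t, -y)` -/
noncomputable def glide (t : ℝ) : Plane ≃ᵢ Plane where
  toFun p := WithLp.toLp 2 ![p 0 + t, -p 1]
  invFun p := WithLp.toLp 2 ![p 0 - t, -p 1]
  left_inv p := by
    ext i
    fin_cases i <;> simp
  right_inv p := by
    ext i
    fin_cases i <;> simp
  isometry_toFun := by
    apply Isometry.of_dist_eq
    intro p q
    rw [EuclideanSpace.dist_eq, EuclideanSpace.dist_eq]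
    simp [Fin.sum_univ_two, dist_neg_neg]

lemma glide_apply (t : ℝ) (p : Plane) : glide t p = WithLp.toLp 2 ![p 0 + t, -p 1] := rfl

/-- There is a Borel measurable vertically rigid `f`, not of the form `a + b x`, such that for
every `c > 0` some horizontal translation, and also some isometry that is neither a translation nor
has a fixed point (so that it is a glide reflection, neither a reflection nor a rotation), carries
`graph (c f)` onto `graph f`. -/
theorem result : ∃ f : ℝ → ℝ, Measurable f ∧ VerticallyRigid f ∧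
    (¬ ∃ a b : ℝ, ∀ x, f x = a + b * x) ∧
    (∀ c : ℝ, 0 < c → ∃ φ : Plane ≃ᵢ Plane, φ '' graph (fun x => c * f x) = graph f ∧
      ∃ u : ℝ, ∀ p, φ p = p + WithLp.toLp 2 ![u, 0]) ∧
    ∀ c : ℝ, 0 < c → ∃ φ : Plane ≃ᵢ Plane, φ '' graph (fun x => c * f x) = graph f ∧
      ¬ IsTranslation φ ∧ ∀ p, φ p ≠ p := by
  have htr : ∀ c : ℝ, 0 < c → ∃ φ : Plane ≃ᵢ Plane,
      φ '' graph (fun x => c * Pool.Agent.R231.VR.ff x) = graph Pool.Agent.R231.VR.ff ∧
      ∃ u : ℝ, ∀ p, φ p = p + WithLp.toLp 2 ![u, 0] := by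
    intro c hc
    obtain ⟨M, t, ht, ht0, htg⟩ := Pool.Agent.R231.VR.gg_surj (Real.log c) 0
    have hF : Pool.Agent.R231.VR.FF t = c := by
      unfold Pool.Agent.R231.VR.FF
      rw [ht0, htg, Real.exp_log hc, zpow_zero, one_mul]
    have heq : ∀ x, Pool.Agent.R231.VR.ff (x + Pool.Agent.R231.VR.th t) =
        c * Pool.Agent.R231.VR.ff x := by
      intro x
      rw [Pool.Agent.R231.VR.ff_add ht, hF]
    refine ⟨IsometryEquiv.addRight (WithLp.toLp 2 ![Pool.Agent.R231.VR.th t, 0] : Plane), ?_,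
      Pool.Agent.R231.VR.th t, fun p => rfl⟩
    ext p
    constructor
    · rintro ⟨q, ⟨x, rfl⟩, rfl⟩
      refine ⟨x + Pool.Agent.R231.VR.th t, ?_⟩
      show (WithLp.toLp 2 ![x + Pool.Agent.R231.VR.th t,
        Pool.Agent.R231.VR.ff (x + Pool.Agent.R231.VR.th t)] : Plane) =
        WithLp.toLp 2 ![x, c * Pool.Agent.R231.VR.ff x] +
          WithLp.toLp 2 ![Pool.Agent.R231.VR.th t, 0]
      rw [heq]
      ext i
      fin_cases i <;> simp
    · rintro ⟨x, rfl⟩
      refine ⟨WithLp.toLp 2 ![x - Pool.Agent.R231.VR.th t,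
        c * Pool.Agent.R231.VR.ff (x - Pool.Agent.R231.VR.th t)], ⟨_, rfl⟩, ?_⟩
      show WithLp.toLp 2 ![x - Pool.Agent.R231.VR.th t,
        c * Pool.Agent.R231.VR.ff (x - Pool.Agent.R231.VR.th t)] +
          WithLp.toLp 2 ![Pool.Agent.R231.VR.th t, 0] =
          (WithLp.toLp 2 ![x, Pool.Agent.R231.VR.ff x] : Plane)
      rw [← heq, sub_add_cancel]
      ext i
      fin_cases i <;> simp
  have hgl : ∀ c : ℝ, 0 < c → ∃ φ : Plane ≃ᵢ Plane,
      φ '' graph (fun x => c * Pool.Agent.R231.VR.ff x) = graph Pool.Agent.R231.VR.ff ∧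
      ¬ IsTranslation φ ∧ ∀ p, φ p ≠ p := by
    intro c hc
    obtain ⟨M, t, ht, ht0, htg⟩ := Pool.Agent.R231.VR.gg_surj (Real.log c) 1
    have hF : Pool.Agent.R231.VR.FF t = -c := by
      unfold Pool.Agent.R231.VR.FF
      rw [ht0, htg, Real.exp_log hc, zpow_one]; ring
    have heq : ∀ x, Pool.Agent.R231.VR.ff (x + Pool.Agent.R231.VR.th t) =
        -(c * Pool.Agent.R231.VR.ff x) := by
      intro x
      rw [Pool.Agent.R231.VR.ff_add ht, hF]; ring
    have hne : Pool.Agent.R231.VR.th t ≠ 0 := by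
      intro h
      have h1 := Pool.Agent.R231.VR.th_eq_zero ht h
      rw [h1] at ht0
      norm_num at ht0
    refine ⟨glide (Pool.Agent.R231.VR.th t), ?_, ?_, ?_⟩
    · ext p
      constructor
      · rintro ⟨q, ⟨x, rfl⟩, rfl⟩
        refine ⟨x + Pool.Agent.R231.VR.th t, ?_⟩
        rw [glide_apply]
        show (WithLp.toLp 2 ![x + Pool.Agent.R231.VR.th t,
          Pool.Agent.R231.VR.ff (x + Pool.Agent.R231.VR.th t)] : Plane) = _
        rw [heq]
        rfl
      · rintro ⟨x, rfl⟩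
        refine ⟨WithLp.toLp 2 ![x - Pool.Agent.R231.VR.th t,
          c * Pool.Agent.R231.VR.ff (x - Pool.Agent.R231.VR.th t)], ⟨_, rfl⟩, ?_⟩
        rw [glide_apply]
        show (WithLp.toLp 2 ![x - Pool.Agent.R231.VR.th t + Pool.Agent.R231.VR.th t,
          -(c * Pool.Agent.R231.VR.ff (x - Pool.Agent.R231.VR.th t))] : Plane) =
          WithLp.toLp 2 ![x, Pool.Agent.R231.VR.ff x]
        rw [← heq, sub_add_cancel]
    · rintro ⟨v, hv⟩
      have h1 := congrFun (congrArg WithLp.ofLp (hv (WithLp.toLp 2 ![0, 0]))) 1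
      have h2 := congrFun (congrArg WithLp.ofLp (hv (WithLp.toLp 2 ![0, 1]))) 1
      simp [glide_apply] at h1 h2
      linarith
    · intro p hp
      have h1 := congrFun (congrArg WithLp.ofLp hp) 0
      simp [glide_apply] at h1
      exact hne h1
  refine ⟨Pool.Agent.R231.VR.ff, Pool.Agent.R231.VR.measurable_ff, ?_, ?_, htr, hgl⟩
  · intro c hc
    obtain ⟨φ, hφ, -⟩ := htr c hc
    exact ⟨φ, hφ⟩
  · rintro ⟨a, b, hab⟩
    -- use `f (x + t) = - f x` and `f (x + s) = 2 f x`
    obtain ⟨M, t, ht, ht0, htg⟩ := Pool.Agent.R231.VR.gg_surj (Real.log 2) 0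
    have hF : Pool.Agent.R231.VR.FF t = 2 := by
      unfold Pool.Agent.R231.VR.FF
      rw [ht0, htg, Real.exp_log two_pos, zpow_zero, one_mul]
    have h1 := fun x => Pool.Agent.R231.VR.ff_add ht x
    simp only [hF, hab] at h1
    have h2 := h1 0
    have h3 := h1 1
    have hb : b = 0 := by linarith
    have ha : a = 0 := by rw [hb] at h2; linarith
    have h0 : (0 : ℕ → ℤ) ∈ Pool.Agent.R231.VR.Bd 0 := by intro n; simp
    have h4 := Pool.Agent.R231.VR.ff_th h0
    rw [hab, ha, hb] at h4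
    apply Pool.Agent.R231.VR.FF_ne 0
    rw [← h4]; ring

end Pool.Agent.Results.MP_f4f8d7_an.GlideReflection
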